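import Pool.Agent.helper15.P2.SpecI

set_option autoImplicit false

open scoped ContDiff Topology ComplexConjugate
open MeasureTheory Filter Set Metric

namespace Pool.Agent.P2I

open Pool.Agent.P2

/-- differentiation under the integral sign, continuous data -/
lemma AVG_par (F F' : ℝ → ℝ → ℝ) (hF : Continuous (Function.uncurry F)) (hF' : Continuous (Function.uncurry F'))
    (hd : ∀ t θ, HasDerivAt (fun t => F t θ) (F' t θ) t) (a b t0 : ℝ) :
    HasDerivAt (fun t => ∫ θ in a..b, F t θ) (∫ θ in a..b, F' t0 θ) t0 := by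
  obtain ⟨C, hC⟩ := ((isCompact_Icc (a := t0 - 1) (b := t0 + 1)).prod (isCompact_uIcc (a := a) (b := b))).exists_bound_of_continuousOn
    (f := Function.uncurry F') hF'.continuousOn
  have hc1 : ∀ t, Continuous (F t) := fun t => hF.comp (by fun_prop : Continuous fun θ : ℝ => (t, θ))
  have hc2 : ∀ t, Continuous (F' t) := fun t => hF'.comp (by fun_prop : Continuous fun θ : ℝ => (t, θ))
  refine (intervalIntegral.hasDerivAt_integral_of_dominated_loc_of_deriv_le (F := F) (F' := F') (x₀ := t0)
    (s := Icc (t0 - 1) (t0 + 1)) (bound := fun _ => C) (Icc_mem_nhds (by linarith) (by linarith)) ?_ ?_ ?_ ?_ ?_ ?_).2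
  · exact Eventually.of_forall fun t => (hc1 t).aestronglyMeasurable
  · exact (hc1 t0).intervalIntegrable _ _
  · exact (hc2 t0).aestronglyMeasurable
  · refine Eventually.of_forall fun θ hθ x hx => ?_
    exact hC (x, θ) ⟨hx, uIoc_subset_uIcc hθ⟩
  · exact continuous_const.intervalIntegrable _ _
  · exact Eventually.of_forall fun θ _ x _ => hd x θ

/-- second derivative in the directions `e`, `i e` -/
lemma AVG_rot (L : ℂ →L[ℝ] ℂ →L[ℝ] ℝ) (e : ℂ) :
    L e e + L (Complex.I * e) (Complex.I * e) = Complex.normSq e * (L 1 1 + L Complex.I Complex.I) := by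
  have h1 : e = (e.re : ℝ) • (1 : ℂ) + (e.im : ℝ) • Complex.I := by
    apply Complex.ext <;> simp
  have h2 : Complex.I * e = (-e.im : ℝ) • (1 : ℂ) + (e.re : ℝ) • Complex.I := by
    apply Complex.ext <;> simp
  have h3 : ∀ a b : ℝ, L ((a : ℝ) • (1 : ℂ) + (b : ℝ) • Complex.I) ((a : ℝ) • (1 : ℂ) + (b : ℝ) • Complex.I) =
      a * a * L 1 1 + a * b * L 1 Complex.I + a * b * L Complex.I 1 + b * b * L Complex.I Complex.I := by
    intro a b
    simp only [map_add, map_smul, ContinuousLinearMap.add_apply, ContinuousLinearMap.smul_apply, smul_eq_mul]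
    ring
  have h4 : L e e = e.re * e.re * L 1 1 + e.re * e.im * L 1 Complex.I + e.re * e.im * L Complex.I 1 + e.im * e.im * L Complex.I Complex.I := by
    rw [← h3 e.re e.im, ← h1]
  rw [h4, h2, h3, Complex.normSq_apply]
  ring

lemma AVG_lap (T : ℂ → ℝ) (x : ℂ) :
    fderiv ℝ (fderiv ℝ T) x 1 1 + fderiv ℝ (fderiv ℝ T) x Complex.I Complex.I = 4 * lap T x := by
  unfold lap
  rw [iteratedFDeriv_two_apply, iteratedFDeriv_two_apply]
  simp only [Matrix.cons_val_zero, Matrix.cons_val_one]
  ring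

/-- circle averages -/
lemma AVG_circle (T : ℂ → ℝ) (hT : ContDiff ℝ ∞ T) (z y : ℂ)
    (hl : ∀ x ∈ closedBall z ‖y‖, 0 ≤ lap T x) :
    2 * Real.pi * T z ≤ ∫ θ in (0 : ℝ)..(2 * Real.pi), T (z + Complex.exp (θ * Complex.I) * y) := by
  set e : ℝ → ℂ := fun θ => Complex.exp (θ * Complex.I) * y with he
  have hec : Continuous e := by simp only [he]; fun_prop
  have hed : ∀ θ, HasDerivAt e (Complex.I * e θ) θ := by
    intro θ
    have h1 : HasDerivAt (fun θ : ℝ => (θ : ℂ) * Complex.I) Complex.I θ := by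
      simpa using (Complex.ofRealCLM.hasDerivAt (x := θ)).mul_const Complex.I
    have h2 := (h1.cexp).mul_const y
    refine h2.congr_deriv ?_
    simp only [he]; ring
  have hen : ∀ θ, ‖e θ‖ = ‖y‖ := by
    intro θ
    simp only [he, norm_mul, Complex.norm_exp_ofReal_mul_I, one_mul]
  set D := fderiv ℝ T with hD
  set D2 := fderiv ℝ (fderiv ℝ T) with hD2
  have hDc : ContDiff ℝ ∞ D := hT.fderiv_right (by simp)
  have hT1 : ∀ x, HasFDerivAt T (D x) x := fun x => (hT.differentiable (by simp) x).hasFDerivAt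
  have hT2 : ∀ x, HasFDerivAt D (D2 x) x := fun x => (hDc.differentiable (by simp) x).hasFDerivAt
  have hDcont : Continuous D := hDc.continuous
  have hD2cont : Continuous D2 := (hDc.fderiv_right (m := ∞) (by simp)).continuous
  have hline : ∀ (t θ : ℝ), HasDerivAt (fun t : ℝ => z + t • e θ) (e θ) t := by
    intro t θ
    simpa using ((hasDerivAt_id t).smul_const (e θ)).const_add z
  set A : ℝ → ℝ := fun t => ∫ θ in (0 : ℝ)..(2 * Real.pi), T (z + t • e θ) with hA
  set B : ℝ → ℝ := fun t => ∫ θ in (0 : ℝ)..(2 * Real.pi), D (z + t • e θ) (e θ) with hB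
  set C : ℝ → ℝ := fun t => ∫ θ in (0 : ℝ)..(2 * Real.pi), D2 (z + t • e θ) (e θ) (e θ) with hC
  have hAd : ∀ t, HasDerivAt A (B t) t := by
    intro t
    refine AVG_par (fun t θ => T (z + t • e θ)) (fun t θ => D (z + t • e θ) (e θ)) ?_ ?_ ?_ _ _ t
    · exact hT.continuous.comp (by fun_prop : Continuous fun p : ℝ × ℝ => z + p.1 • e p.2)
    · exact (hDcont.comp (by fun_prop : Continuous fun p : ℝ × ℝ => z + p.1 • e p.2)).clm_apply (hec.comp continuous_snd)
    · intro t θ
      exact (hT1 (z + t • e θ)).comp_hasDerivAt t (hline t θ)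
  have hBd : ∀ t, HasDerivAt B (C t) t := by
    intro t
    refine AVG_par (fun t θ => D (z + t • e θ) (e θ)) (fun t θ => D2 (z + t • e θ) (e θ) (e θ)) ?_ ?_ ?_ _ _ t
    · exact (hDcont.comp (by fun_prop : Continuous fun p : ℝ × ℝ => z + p.1 • e p.2)).clm_apply (hec.comp continuous_snd)
    · exact ((hD2cont.comp (by fun_prop : Continuous fun p : ℝ × ℝ => z + p.1 • e p.2)).clm_apply (hec.comp continuous_snd)).clm_apply (hec.comp continuous_snd)
    · intro t θ
      have h1 := (hT2 (z + t • e θ)).comp_hasDerivAt t (hline t θ)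
      have h2 := h1.clm_apply (hasDerivAt_const t (e θ))
      simpa using h2
  -- periodicity
  have hper : ∀ t, B t = t * ∫ θ in (0 : ℝ)..(2 * Real.pi), D2 (z + t • e θ) (Complex.I * e θ) (Complex.I * e θ) := by
    intro t
    have hd : ∀ θ : ℝ, HasDerivAt (fun θ : ℝ => D (z + t • e θ) (Complex.I * e θ))
        (t * D2 (z + t • e θ) (Complex.I * e θ) (Complex.I * e θ) - D (z + t • e θ) (e θ)) θ := by
      intro θ
      have h0 : HasDerivAt (fun θ : ℝ => z + t • e θ) (t • (Complex.I * e θ)) θ := ((hed θ).const_smul t).const_add z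
      have h1 := (hT2 (z + t • e θ)).comp_hasDerivAt θ h0
      have h2 : HasDerivAt (fun θ : ℝ => Complex.I * e θ) (- e θ) θ := by
        have := (hed θ).const_mul Complex.I
        refine this.congr_deriv ?_
        rw [← mul_assoc, Complex.I_mul_I]; ring
      have h3 := h1.clm_apply h2
      refine h3.congr_deriv ?_
      simp only [Function.comp, map_smul, ContinuousLinearMap.smul_apply, smul_eq_mul, map_neg]
      ring
    have hcont1 : Continuous fun θ : ℝ => D2 (z + t • e θ) (Complex.I * e θ) (Complex.I * e θ) :=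
      ((hD2cont.comp (by fun_prop : Continuous fun θ : ℝ => z + t • e θ)).clm_apply (by fun_prop)).clm_apply (by fun_prop)
    have hcont2 : Continuous fun θ : ℝ => D (z + t • e θ) (e θ) :=
      (hDcont.comp (by fun_prop : Continuous fun θ : ℝ => z + t • e θ)).clm_apply (by fun_prop)
    have h4 := intervalIntegral.integral_eq_sub_of_hasDerivAt (a := 0) (b := 2 * Real.pi) (fun θ _ => hd θ)
      ((continuous_const.mul hcont1).sub hcont2 |>.intervalIntegrable _ _)
    have h5 : e (2 * Real.pi) = e 0 := by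
      simp only [he]
      push_cast
      rw [Complex.exp_two_pi_mul_I]; simp
    have hcont4 : Continuous fun θ : ℝ => t * D2 (z + t • e θ) (Complex.I * e θ) (Complex.I * e θ) := continuous_const.mul hcont1
    rw [h5, sub_self, intervalIntegral.integral_sub (hcont4.intervalIntegrable _ _) (hcont2.intervalIntegrable _ _),
      intervalIntegral.integral_const_mul] at h4
    simp only [hB]
    linarith
  have hh : ∀ t, HasDerivAt (fun t => t * B t) (B t + t * C t) t := by
    intro t
    have h := (hasDerivAt_id' t).mul (hBd t)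
    refine h.congr_deriv ?_
    ring
  have hpos : ∀ t ∈ Icc (0 : ℝ) 1, 0 ≤ B t + t * C t := by
    intro t ht
    rw [hper t]
    simp only [hC]
    have hcont1 : Continuous fun θ : ℝ => D2 (z + t • e θ) (Complex.I * e θ) (Complex.I * e θ) :=
      ((hD2cont.comp (by fun_prop : Continuous fun θ : ℝ => z + t • e θ)).clm_apply (by fun_prop)).clm_apply (by fun_prop)
    have hcont3 : Continuous fun θ : ℝ => D2 (z + t • e θ) (e θ) (e θ) :=
      ((hD2cont.comp (by fun_prop : Continuous fun θ : ℝ => z + t • e θ)).clm_apply (by fun_prop)).clm_apply (by fun_prop)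
    rw [← mul_add, ← intervalIntegral.integral_add (hcont1.intervalIntegrable _ _) (hcont3.intervalIntegrable _ _)]
    refine mul_nonneg ht.1 (intervalIntegral.integral_nonneg (by positivity) fun θ _ => ?_)
    rw [add_comm, AVG_rot, hD2, AVG_lap]
    refine mul_nonneg (Complex.normSq_nonneg _) (mul_nonneg (by norm_num) (hl _ ?_))
    rw [mem_closedBall, dist_eq_norm, add_sub_cancel_left, norm_smul, hen, Real.norm_eq_abs, abs_of_nonneg ht.1]
    have := norm_nonneg y
    nlinarith [ht.2]
  have hmono : MonotoneOn (fun t => t * B t) (Icc (0 : ℝ) 1) := by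
    refine monotoneOn_of_deriv_nonneg (convex_Icc _ _) (fun t _ => (hh t).continuousAt.continuousWithinAt)
      (fun t _ => (hh t).differentiableAt.differentiableWithinAt) fun t ht => ?_
    rw [(hh t).deriv]
    exact hpos t (interior_subset ht)
  have hBpos : ∀ t ∈ Icc (0 : ℝ) 1, 0 < t → 0 ≤ B t := by
    intro t ht h0
    have := hmono (left_mem_Icc.2 zero_le_one) ht ht.1
    simp only [zero_mul] at this
    by_contra hneg
    push Not at hneg
    nlinarith
  have hAmono : MonotoneOn A (Icc (0 : ℝ) 1) := by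
    refine monotoneOn_of_deriv_nonneg (convex_Icc _ _) (fun t _ => (hAd t).continuousAt.continuousWithinAt)
      (fun t _ => (hAd t).differentiableAt.differentiableWithinAt) fun t ht => ?_
    rw [(hAd t).deriv]
    rw [interior_Icc] at ht
    exact hBpos t ⟨ht.1.le, ht.2.le⟩ ht.1
  have hfin := hAmono (left_mem_Icc.2 zero_le_one) (right_mem_Icc.2 zero_le_one) zero_le_one
  simp only [hA, zero_smul, add_zero, one_smul, intervalIntegral.integral_const, sub_zero, smul_eq_mul] at hfin
  simpa only [he] using hfin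

/-- cut-off extension -/
lemma AVG_ext (T : ℂ → ℝ) (z : ℂ) (δ s : ℝ) (hs : 0 < s) (hsδ : s < δ) (hT : ContDiffOn ℝ ∞ T (ball z δ)) :
    ∃ T' : ℂ → ℝ, ContDiff ℝ ∞ T' ∧ ∀ x ∈ ball z s, T' x = T x ∧ lap T' x = lap T x := by
  let f : ContDiffBump z := ⟨s, (s + δ) / 2, hs, by linarith⟩
  refine ⟨fun x => f x * T x, ?_, ?_⟩
  · refine contDiff_iff_contDiffAt.2 fun x => ?_
    by_cases hx : x ∈ ball z δ
    · exact (f.contDiff.contDiffAt).mul ((hT x hx).contDiffAt (isOpen_ball.mem_nhds hx))
    · have hx2 : x ∈ (closedBall z ((s + δ) / 2))ᶜ := by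
        intro hx3
        apply hx
        rw [mem_closedBall] at hx3
        rw [mem_ball]
        linarith
      have : (fun x => f x * T x) =ᶠ[𝓝 x] fun _ => (0 : ℝ) := by
        filter_upwards [isClosed_closedBall.isOpen_compl.mem_nhds hx2] with y hy
        have : f y = 0 := by
          apply f.zero_of_le_dist
          have : ¬ (dist y z ≤ (s + δ) / 2) := hy
          exact (not_le.1 this).le
        rw [this, zero_mul]
      exact contDiffAt_const.congr_of_eventuallyEq this
  · intro x hx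
    have h1 : ∀ y ∈ ball z s, f y * T y = T y := by
      intro y hy
      have : f y = 1 := f.one_of_mem_closedBall (ball_subset_closedBall hy)
      rw [this, one_mul]
    refine ⟨h1 x hx, ?_⟩
    have h2 : (fun x => f x * T x) =ᶠ[𝓝 x] T := by
      filter_upwards [isOpen_ball.mem_nhds hx] with y hy using h1 y hy
    unfold lap
    rw [(Filter.EventuallyEq.iteratedFDeriv ℝ h2 2).eq_of_nhds]

/-- rotation of the disc average -/
lemma AVG_rotint (g : ℂ → ℝ) (s θ : ℝ) :
    ∫ y in ball (0 : ℂ) s, g (Complex.exp (θ * Complex.I) * y) = ∫ y in ball (0 : ℂ) s, g y := by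
  have hmp : MeasurePreserving (rotation (Circle.exp θ)) volume volume := (rotation (Circle.exp θ)).measurePreserving
  have h := hmp.setIntegral_preimage_emb (rotation (Circle.exp θ)).toHomeomorph.measurableEmbedding g (ball (0 : ℂ) s)
  have hpre : (rotation (Circle.exp θ)) ⁻¹' ball (0 : ℂ) s = ball (0 : ℂ) s := by
    ext x
    rw [mem_preimage, mem_ball_zero_iff, mem_ball_zero_iff, LinearIsometryEquiv.norm_map]
  rw [hpre] at h
  rw [← h]
  simp only [rotation_apply, Circle.coe_exp]

lemma AVG_ball (T : ℂ → ℝ) (z : ℂ) (s : ℝ) : ∫ x in ball z s, T x = ∫ y in ball (0 : ℂ) s, T (z + y) := by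
  have hmp : MeasurePreserving (fun y : ℂ => z + y) volume volume := measurePreserving_add_left volume z
  have h := hmp.setIntegral_preimage_emb (measurableEmbedding_addLeft z) T (ball z s)
  have hpre : (fun y : ℂ => z + y) ⁻¹' ball z s = ball (0 : ℂ) s := by
    ext x
    simp [mem_ball, dist_eq_norm]
  rw [hpre] at h
  exact h.symm

/-- the submean value property -/
lemma AVG_one (T : ℂ → ℝ) (hT : ContDiff ℝ ∞ T) (z : ℂ) (s : ℝ) (hs : 0 < s) (hl : ∀ x ∈ ball z s, 0 ≤ lap T x) :
    T z ≤ ⨍ x in ball z s, T x := by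
  have hvol : 0 < volume.real (ball (0 : ℂ) s) := by
    rw [measureReal_def, ENNReal.toReal_pos_iff]
    exact ⟨measure_ball_pos _ _ hs, measure_ball_lt_top⟩
  have hvol2 : volume.real (ball z s) = volume.real (ball (0 : ℂ) s) := by
    rw [measureReal_def, measureReal_def, Complex.volume_ball, Complex.volume_ball]
  have hπ := Real.pi_pos
  have hc : Continuous T := hT.continuous
  -- Fubini
  have hint : Integrable (fun p : ℝ × ℂ => T (z + Complex.exp (p.1 * Complex.I) * p.2))
      ((volume.restrict (Ioc 0 (2 * Real.pi))).prod (volume.restrict (ball (0 : ℂ) s))) := by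
    rw [Measure.prod_restrict, ← Measure.volume_eq_prod]
    have hcc : Continuous (fun p : ℝ × ℂ => T (z + Complex.exp (p.1 * Complex.I) * p.2)) := by fun_prop
    exact (hcc.continuousOn.integrableOn_compact (isCompact_Icc.prod (isCompact_closedBall (0 : ℂ) s))).mono_set
      (prod_mono Ioc_subset_Icc_self ball_subset_closedBall)
  have h1 : (∫ θ in Ioc 0 (2 * Real.pi), ∫ y in ball (0 : ℂ) s, T (z + Complex.exp (θ * Complex.I) * y))
      = 2 * Real.pi * ∫ y in ball (0 : ℂ) s, T (z + y) := by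
    have : ∀ θ : ℝ, (∫ y in ball (0 : ℂ) s, T (z + Complex.exp (θ * Complex.I) * y)) = ∫ y in ball (0 : ℂ) s, T (z + y) :=
      fun θ => AVG_rotint (fun y => T (z + y)) s θ
    simp only [this]
    rw [setIntegral_const, measureReal_def, Real.volume_Ioc, sub_zero, ENNReal.toReal_ofReal (by positivity), smul_eq_mul]
  have h2 := integral_integral_swap (f := fun (θ : ℝ) (y : ℂ) => T (z + Complex.exp (θ * Complex.I) * y)) hint
  have h3 : (∫ y in ball (0 : ℂ) s, (2 * Real.pi * T z)) ≤
      ∫ y in ball (0 : ℂ) s, ∫ θ in Ioc 0 (2 * Real.pi), T (z + Complex.exp (θ * Complex.I) * y) := by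
    refine setIntegral_mono_on (integrableOn_const (measure_ball_lt_top.ne)) hint.integral_prod_right measurableSet_ball fun y hy => ?_
    rw [← intervalIntegral.integral_of_le (by positivity)]
    refine AVG_circle T hT z y fun x hx => hl x ?_
    rw [mem_ball_zero_iff] at hy
    rw [mem_closedBall] at hx
    rw [mem_ball]
    linarith
  rw [← h2, h1, setIntegral_const, smul_eq_mul] at h3
  rw [setAverage_eq, hvol2, AVG_ball, smul_eq_mul]
  rw [le_inv_mul_iff₀ hvol]
  nlinarith

/-- second moment of the disc -/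
lemma AVG_mom (s : ℝ) (hs : 0 < s) : ∫ y in ball (0 : ℂ) s, ‖y‖ ^ 2 = Real.pi * s ^ 4 / 2 := by
  have h1 : ∫ y in ball (0 : ℂ) s, ‖y‖ ^ 2 = ∫ y : ℂ, (fun r : ℝ => (Iio s).indicator (fun r => r ^ 2) r) ‖y‖ := by
    rw [← integral_indicator measurableSet_ball]
    refine integral_congr_ae (Eventually.of_forall fun y => ?_)
    simp only [indicator, mem_ball_zero_iff, mem_Iio]
  rw [h1, integral_fun_norm_addHaar]
  have h2 : ∫ y in Ioi (0 : ℝ), y ^ (Module.finrank ℝ ℂ - 1) • (Iio s).indicator (fun r => r ^ 2) y = s ^ 4 / 4 := by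
    rw [Complex.finrank_real_complex]
    have : ∀ y : ℝ, y ^ (2 - 1) • (Iio s).indicator (fun r => r ^ 2) y = (Iio s).indicator (fun r => r ^ 3) y := by
      intro y
      by_cases hy : y ∈ Iio s
      · rw [indicator_of_mem hy, indicator_of_mem hy, smul_eq_mul]; norm_num; ring
      · rw [indicator_of_notMem hy, indicator_of_notMem hy, smul_zero]
    simp only [this]
    rw [setIntegral_indicator measurableSet_Iio, Ioi_inter_Iio, ← integral_Ioc_eq_integral_Ioo, ← intervalIntegral.integral_of_le hs.le,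
      integral_pow]
    norm_num
  rw [h2, Complex.finrank_real_complex, measureReal_def, Complex.volume_ball]
  simp
  ring

lemma AVG_dist (A B : ℂ →L[ℝ] ℂ →L[ℝ] ℝ) : ‖A - B‖ = dist A B := (dist_eq_norm A B).symm

/-- Taylor of order two -/
lemma AVG_taylor (T : ℂ → ℝ) (hT : ContDiff ℝ ∞ T) (z : ℂ) (s η : ℝ) (hs : 0 < s)
    (hη : ∀ x ∈ ball z s, ‖fderiv ℝ (fderiv ℝ T) x - fderiv ℝ (fderiv ℝ T) z‖ ≤ η) (y : ℂ) (hy : y ∈ ball (0 : ℂ) s) :
    |T (z + y) - T z - fderiv ℝ T z y - (1 / 2) * fderiv ℝ (fderiv ℝ T) z y y| ≤ η * s ^ 2 := by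
  set D := fderiv ℝ T with hD
  set D2 := fderiv ℝ (fderiv ℝ T) with hD2
  have hDc : ContDiff ℝ ∞ D := hT.fderiv_right (by simp)
  have hT1 : ∀ x, HasFDerivAt T (D x) x := fun x => (hT.differentiable (by simp) x).hasFDerivAt
  have hT2 : ∀ x, HasFDerivAt D (D2 x) x := fun x => (hDc.differentiable (by simp) x).hasFDerivAt
  have hline : ∀ (t : ℝ), HasDerivAt (fun t : ℝ => z + t • y) y t := by
    intro t
    simpa using ((hasDerivAt_id t).smul_const y).const_add z
  rw [mem_ball_zero_iff] at hy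
  have hη0 : 0 ≤ η := le_trans (norm_nonneg (D2 z - D2 z)) (hη z (mem_ball_self hs))
  have hd1 : ∀ t : ℝ, HasDerivAt (fun t : ℝ => T (z + t • y) - t * D z y - t ^ 2 / 2 * D2 z y y) (D (z + t • y) y - D z y - t * D2 z y y) t := by
    intro t
    have h1 := (hT1 (z + t • y)).comp_hasDerivAt t (hline t)
    have h2 : HasDerivAt (fun t : ℝ => t * D z y) (D z y) t := by simpa using (hasDerivAt_id' t).mul_const (D z y)
    have h3 : HasDerivAt (fun t : ℝ => t ^ 2 / 2 * D2 z y y) (t * D2 z y y) t := by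
      have := (((hasDerivAt_id' t).pow 2).div_const 2).mul_const (D2 z y y)
      refine this.congr_deriv ?_
      simp
    exact (h1.sub h2).sub h3
  have hd2 : ∀ t : ℝ, HasDerivAt (fun t : ℝ => D (z + t • y) y - D z y - t * D2 z y y) (D2 (z + t • y) y y - D2 z y y) t := by
    intro t
    have h1 := ((hT2 (z + t • y)).comp_hasDerivAt t (hline t)).clm_apply (hasDerivAt_const t y)
    have h2 : HasDerivAt (fun t : ℝ => t * D2 z y y) (D2 z y y) t := by simpa using (hasDerivAt_id' t).mul_const (D2 z y y)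
    have h3 := (h1.sub_const (D z y)).sub h2
    refine h3.congr_deriv ?_
    simp
  have hb2 : ∀ t ∈ Icc (0 : ℝ) 1, ‖D2 (z + t • y) y y - D2 z y y‖ ≤ η * s ^ 2 := by
    intro t ht
    have h1 : z + t • y ∈ ball z s := by
      rw [mem_ball, dist_eq_norm, add_sub_cancel_left, norm_smul, Real.norm_eq_abs, abs_of_nonneg ht.1]
      have := norm_nonneg y
      nlinarith [ht.2]
    have h2 : D2 (z + t • y) y y - D2 z y y = (D2 (z + t • y) - D2 z) y y := by simp
    rw [h2]
    calc ‖(D2 (z + t • y) - D2 z) y y‖ ≤ ‖D2 (z + t • y) - D2 z‖ * ‖y‖ * ‖y‖ := ContinuousLinearMap.le_opNorm₂ _ _ _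
      _ ≤ η * s * s := by
        have := hη _ h1
        gcongr
      _ = η * s ^ 2 := by ring
  have hb1 : ∀ t ∈ Icc (0 : ℝ) 1, ‖D (z + t • y) y - D z y - t * D2 z y y‖ ≤ η * s ^ 2 := by
    intro t ht
    have h1 := (convex_Icc (0 : ℝ) 1).norm_image_sub_le_of_norm_hasDerivWithin_le (fun t _ => (hd2 t).hasDerivWithinAt) hb2
      (left_mem_Icc.2 zero_le_one) ht
    simp only [zero_smul, add_zero, sub_self, zero_mul, sub_zero, Real.norm_eq_abs, abs_of_nonneg ht.1] at h1
    rw [Real.norm_eq_abs]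
    refine h1.trans ?_
    have : 0 ≤ η * s ^ 2 := by positivity
    nlinarith [ht.2]
  have h1 := (convex_Icc (0 : ℝ) 1).norm_image_sub_le_of_norm_hasDerivWithin_le (fun t _ => (hd1 t).hasDerivWithinAt) hb1
    (left_mem_Icc.2 zero_le_one) (right_mem_Icc.2 zero_le_one)
  simp only [zero_smul, add_zero, zero_mul, sub_zero, one_smul, one_mul, Real.norm_eq_abs, one_pow, abs_one, mul_one] at h1
  norm_num at h1
  refine le_trans (le_of_eq ?_) h1
  congr 1
  ring

/-- disc average up to order two -/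
lemma AVG_two (T : ℂ → ℝ) (hT : ContDiff ℝ ∞ T) (z : ℂ) (s η : ℝ) (hs : 0 < s)
    (hη : ∀ x ∈ ball z s, ‖fderiv ℝ (fderiv ℝ T) x - fderiv ℝ (fderiv ℝ T) z‖ ≤ η) :
    |(⨍ x in ball z s, T x) - T z - s ^ 2 / 2 * lap T z| ≤ η * s ^ 2 := by
  have hvol : volume.real (ball (0 : ℂ) s) = Real.pi * s ^ 2 := by
    rw [measureReal_def, Complex.volume_ball]
    simp [hs.le]
    ring
  have hvol2 : volume.real (ball z s) = volume.real (ball (0 : ℂ) s) := by
    rw [measureReal_def, measureReal_def, Complex.volume_ball, Complex.volume_ball]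
  have hπ := Real.pi_pos
  set D := fderiv ℝ T with hD
  set D2 := fderiv ℝ (fderiv ℝ T) with hD2
  have hbound := fun y hy => AVG_taylor T hT z s η hs hη y hy
  have hfin : volume (ball (0 : ℂ) s) ≠ ⊤ := measure_ball_lt_top.ne
  have hcI : ∀ f : ℂ → ℝ, Continuous f → IntegrableOn f (ball (0 : ℂ) s) := fun f hf =>
    (hf.continuousOn.integrableOn_compact (isCompact_closedBall (0 : ℂ) s)).mono_set ball_subset_closedBall
  have c1 : Continuous fun y : ℂ => T (z + y) := hT.continuous.comp (by fun_prop)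
  have c2 : Continuous fun y : ℂ => D z y := (D z).continuous
  have c3 : Continuous fun y : ℂ => D2 z y y := ((D2 z).continuous).clm_apply continuous_id
  -- odd part
  have hodd : ∫ y in ball (0 : ℂ) s, D z y = 0 := by
    have h := AVG_rotint (fun y => D z y) s Real.pi
    simp only [Complex.exp_pi_mul_I, neg_mul, one_mul, map_neg] at h
    rw [integral_neg] at h
    linarith
  have hquad : ∫ y in ball (0 : ℂ) s, D2 z y y = Real.pi * s ^ 4 * lap T z := by
    have h := AVG_rotint (fun y => D2 z y y) s (Real.pi / 2)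
    have he : Complex.exp ((Real.pi / 2 : ℝ) * Complex.I) = Complex.I := by
      push_cast
      exact Complex.exp_pi_div_two_mul_I
    simp only [he] at h
    have c4 : Continuous fun y : ℂ => D2 z (Complex.I * y) (Complex.I * y) :=
      ((D2 z).continuous.comp (by fun_prop)).clm_apply (by fun_prop)
    have h2 : ∫ y in ball (0 : ℂ) s, (D2 z y y + D2 z (Complex.I * y) (Complex.I * y)) = 2 * ∫ y in ball (0 : ℂ) s, D2 z y y := by
      rw [integral_add (hcI _ c3) (hcI _ c4), h]; ring
    have h3 : ∫ y in ball (0 : ℂ) s, (D2 z y y + D2 z (Complex.I * y) (Complex.I * y)) = 4 * lap T z * (Real.pi * s ^ 4 / 2) := by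
      rw [← AVG_mom s hs, ← integral_const_mul]
      refine integral_congr_ae (Eventually.of_forall fun y => ?_)
      simp only
      rw [AVG_rot, hD2, AVG_lap, Complex.normSq_eq_norm_sq]
      ring
    linarith
  have hsplit : ∫ y in ball (0 : ℂ) s, (T (z + y) - T z - D z y - (1 / 2) * D2 z y y) =
      (∫ y in ball (0 : ℂ) s, T (z + y)) - Real.pi * s ^ 2 * T z - (1 / 2) * (Real.pi * s ^ 4 * lap T z) := by
    have c5 : Continuous fun _ : ℂ => T z := continuous_const
    have c6 : Continuous fun y : ℂ => (1 / 2) * D2 z y y := continuous_const.mul c3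
    have c7 : Continuous fun y : ℂ => T (z + y) - T z := c1.sub c5
    have c8 : Continuous fun y : ℂ => T (z + y) - T z - D z y := c7.sub c2
    rw [integral_sub (hcI _ c8) (hcI _ c6), integral_sub (hcI _ c7) (hcI _ c2), integral_sub (hcI _ c1) (hcI _ c5),
      hodd, integral_const_mul, hquad, setIntegral_const, hvol]
    simp
  have hnorm : ‖∫ y in ball (0 : ℂ) s, (T (z + y) - T z - D z y - (1 / 2) * D2 z y y)‖ ≤ (η * s ^ 2) * volume.real (ball (0 : ℂ) s) := by
    refine norm_setIntegral_le_of_norm_le_const measure_ball_lt_top fun y hy => ?_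
    rw [Real.norm_eq_abs]
    exact hbound y hy
  rw [hsplit, hvol, Real.norm_eq_abs] at hnorm
  rw [setAverage_eq, hvol2, hvol, AVG_ball, smul_eq_mul]
  set J := ∫ y in ball (0 : ℂ) s, T (z + y) with hJ
  have hpos : 0 < Real.pi * s ^ 2 := by positivity
  have key : (Real.pi * s ^ 2)⁻¹ * J - T z - s ^ 2 / 2 * lap T z = (Real.pi * s ^ 2)⁻¹ * (J - Real.pi * s ^ 2 * T z - (1 / 2) * (Real.pi * s ^ 4 * lap T z)) := by
    field_simp
  rw [key, abs_mul, abs_of_pos (inv_pos.2 hpos), inv_mul_le_iff₀ hpos]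
  linarith

theorem AVG : AVG_stmt := by
  refine ⟨?_, ?_, ?_⟩
  · intro T z δ hT hl s hs hsδ
    obtain ⟨T', hT', hEq⟩ := AVG_ext T z δ s hs hsδ hT
    have h1 := AVG_one T' hT' z s hs fun x hx => by
      rw [(hEq x hx).2]
      exact hl x (ball_subset_ball hsδ.le hx)
    rw [(hEq z (mem_ball_self hs)).1] at h1
    refine h1.trans (le_of_eq ?_)
    rw [setAverage_eq, setAverage_eq, setIntegral_congr_fun measurableSet_ball fun x hx => (hEq x hx).1]
  · intro T z δ hδ hT ε hε
    obtain ⟨T', hT', hEq⟩ := AVG_ext T z δ (δ / 2) (by positivity) (by linarith) hT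
    have hD2 : Continuous (fderiv ℝ (fderiv ℝ T')) :=
      (((hT'.fderiv_right (m := ∞) (by simp)).fderiv_right (m := ∞) (by simp))).continuous
    obtain ⟨r, hr, hrb⟩ := (Metric.continuous_iff (α := ℂ) (β := ℂ →L[ℝ] ℂ →L[ℝ] ℝ) (f := fderiv ℝ (fderiv ℝ T'))).1 hD2 z ε hε
    refine ⟨min r (δ / 2), lt_min hr (by positivity), fun s hs hs2 => ?_⟩
    have h1 := AVG_two T' hT' z s ε hs fun x hx =>
      (AVG_dist _ _).trans_le (hrb x (lt_of_lt_of_le (mem_ball.1 hx) (hs2.le.trans (min_le_left _ _)))).le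
    have hsδ : s ≤ δ / 2 := hs2.le.trans (min_le_right _ _)
    have hz : z ∈ ball z (δ / 2) := mem_ball_self (by positivity)
    rw [(hEq z hz).1, (hEq z hz).2] at h1
    have h2 : ⨍ x in ball z s, T x = ⨍ x in ball z s, T' x := by
      rw [setAverage_eq, setAverage_eq, setIntegral_congr_fun measurableSet_ball fun x hx => (hEq x (ball_subset_ball hsδ hx)).1]
    rw [h2]
    exact h1
  · intro χ hχ hχc ε hε
    have hD2 : Continuous (fderiv ℝ (fderiv ℝ χ)) :=
      (((hχ.fderiv_right (m := ∞) (by simp)).fderiv_right (m := ∞) (by simp))).continuous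
    have hDc : HasCompactSupport (fderiv ℝ (fderiv ℝ χ)) := (hχc.fderiv ℝ).fderiv ℝ
    obtain ⟨r, hr, hrb⟩ := (Metric.uniformContinuous_iff (α := ℂ) (β := ℂ →L[ℝ] ℂ →L[ℝ] ℝ) (f := fderiv ℝ (fderiv ℝ χ))).1 (hDc.uniformContinuous_of_continuous hD2) ε hε
    refine ⟨r, hr, fun s hs hs2 z => ?_⟩
    exact AVG_two χ hχ z s ε hs fun x hx => (AVG_dist _ _).trans_le (hrb ((mem_ball.1 hx).trans hs2)).le

end Pool.Agent.P2I
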